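import Mathlib
import Pool.Agent.Q213.LV.Game

/-!
# The unbalanced relation after the Levy collapse is decided by a game in the ground model

Let `κ` be an uncountable regular cardinal, given by a well-ordered set `K` of order type `κ`, let
`λ = #L ≥ 𝔠` and let `α < κ` be the order type of `Set.Iio a`, `a : K`. In the game of length `κ`
player I plays infinite sets `B x`, and player II answers with sets `X x` such that `X x ∩ B y` is
infinite for all `y ≤ x`; II loses if some infinite set is contained in `α` many (in order type)
of the sets `X x`. If II has a winning strategy in the ground model, then `Levy(κ, λ)` forces the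
failure of `(κ; ω) → (κ α; ω ω)`, and otherwise it forces that this relation holds.
-/

set_option autoImplicit false

namespace Pool.Agent.Results.MP_e35e92_lc.GameEquivalence

open Cardinal Set
open Pool.Agent.Helper669.Forcing Pool.Agent.Q213.LV

theorem result (κ : Cardinal.{0}) (hκ : κ.IsRegular) (hκ0 : ℵ₀ < κ) (K L : Type) [LinearOrder K]
    [WellFoundedLT K] (hK : Ordinal.type ((· < ·) : K → K → Prop) = κ.ord) (hc : 𝔠 ≤ #L)
    (a : K) :
    (IIWins K (Iio a) → ∀ p : Levy K L, p ∈ fnot (Unbalanced (Levy K L) K (Iio a))) ∧
    (¬ IIWins K (Iio a) → ∀ p : Levy K L, p ∈ Unbalanced (Levy K L) K (Iio a)) := by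
  obtain ⟨hmk, hkap⟩ := kap hκ K hK
  refine ⟨fun h p => fails_of_wins hκ hκ0 K L hK hc (hkap.iio a) h p, fun h p c q _ hq => ?_⟩
  exact h (wins_of_fails hκ0 (closed_levy hκ K L hmk) hkap (hkap.iio a) c hq.1 hq.2)

end Pool.Agent.Results.MP_e35e92_lc.GameEquivalence
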