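import Mathlib
import Pool.Agent.Q213.LV.Fin

/-!
# The polarized relations after the Levy collapse

Let `κ` be an uncountable cardinal, given by a well-ordered set `K` of order type `κ`, let `λ = #L`
be at least `κ` and at least the continuum, and let `P = Levy(κ, λ)`. The ordinals `α < κ` are the
order types of the initial segments `Set.Iio a`, `a : K`.

* If `κ` is regular and `|α| < 𝔥`, then `P` forces `(κ; ω) → (κ α; ω ω)`. So for `κ ≤ 𝔥` it forces
  this for every `α < κ`. (Only the closure of `P` is used. The proof is by induction on `α`; for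
  `α` of uncountable cofinality it uses that the product of a `κ`-closed forcing and `P(ω)/fin`
  has a distributivity property, and for countable cofinality a fusion with finite sets.)
* If `κ` is regular and `𝔯 < κ`, then `P` forces the strong relation `(κ; ω) → (κ; ω)`.
* If `κ` is regular and `κ ≤ 𝔯`, then `P` forces the failure of the strong relation.
* If `κ` is singular and `ω < cf κ ≤ 𝔯`, then `P` forces the failure of `(κ; ω) → (κ α; ω ω)` for
  every `α < κ` with `α ≥ cf κ`.
-/

set_option autoImplicit false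

namespace Pool.Agent.Results.MP_e35e92_lc.LevyPolarized

open Cardinal Set
open Pool.Agent.Helper669.Forcing Pool.Agent.Q213.LV

theorem result (κ : Cardinal.{0}) (hκ0 : ℵ₀ < κ) (K L : Type) [LinearOrder K] [WellFoundedLT K]
    (hK : Ordinal.type ((· < ·) : K → K → Prop) = κ.ord) (hL : κ ≤ #L) (hc : 𝔠 ≤ #L)
    (p : Levy K L) :
    (κ.IsRegular → ∀ a : K, #(Iio a) < hNum → p ∈ Unbalanced (Levy K L) K (Iio a)) ∧
    (κ.IsRegular → rNum < κ → p ∈ Strong (Levy K L) K) ∧
    (κ.IsRegular → κ ≤ rNum → p ∈ fnot (Strong (Levy K L) K)) ∧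
    (ℵ₀ < κ.ord.cof → κ.ord.cof < κ → κ.ord.cof ≤ rNum →
      ∀ a : K, κ.ord.cof ≤ #(Iio a) → p ∈ fnot (Unbalanced (Levy K L) K (Iio a))) := by
  refine ⟨fun hκ a ha => ?_, fun hκ hr => ?_, fun hκ hr => ?_, fun h0 h1 hr a ha => ?_⟩
  · obtain ⟨hmk, hkap⟩ := kap hκ K hK
    exact unbalanced hκ0 (closed_levy hκ K L hmk) hkap a (dist_of_lt ha) p
  · obtain ⟨hmk, hkap⟩ := kap hκ K hK
    exact strong hκ0 (closed_levy hκ K L hmk) hkap hr p
  · exact strong_fails hκ hκ0 K L hK hc hL hr p
  · exact singular_fails h0 h1 K L hK hc hL hr ha p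

end Pool.Agent.Results.MP_e35e92_lc.LevyPolarized
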